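import Pool.Agent.H664.QK.Stm

set_option autoImplicit false
set_option synthInstance.maxHeartbeats 400000

namespace Pool.Agent.H501.QK

open MvPolynomial Cardinal Pool.Agent.H664.QK

abbrev PP := MvPolynomial ℂ ℂ
abbrev LL := FractionRing PP
abbrev OO := AlgebraicClosure LL

noncomputable def zeta1 : ℂ → LL := fun c => algebraMap PP LL (X c)
noncomputable def zeta : ℂ → OO := fun c => algebraMap LL OO (zeta1 c)

theorem zeta1_ai : AlgebraicIndependent ℂ zeta1 := by
  have h := (MvPolynomial.algebraicIndependent_X ℂ ℂ)
  exact h.map' (f := IsScalarTower.toAlgHom ℂ PP LL) (IsFractionRing.injective PP LL)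

theorem zeta_ai : AlgebraicIndependent ℂ zeta := by
  exact zeta1_ai.map' (f := IsScalarTower.toAlgHom ℂ LL OO) (algebraMap LL OO).injective

theorem card_OO : #OO = 𝔠 := by
  have h0 : #PP ≤ 𝔠 := by
    refine (MvPolynomial.cardinalMk_le_max).trans ?_
    simp [Cardinal.aleph0_le_continuum]
  have h1 : #(FractionRing PP) ≤ 𝔠 := by
    refine (Cardinal.mk_le_of_surjective (f := fun p : PP × nonZeroDivisors PP => IsLocalization.mk' (FractionRing PP) p.1 p.2) ?_).trans ?_
    · intro x
      obtain ⟨a, b, h⟩ := IsLocalization.exists_mk'_eq (nonZeroDivisors PP) x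
      exact ⟨(a, b), h⟩
    · rw [Cardinal.mk_prod]
      simp only [Cardinal.lift_id]
      calc #PP * #(nonZeroDivisors PP) ≤ 𝔠 * 𝔠 := mul_le_mul' h0 ((Cardinal.mk_subtype_le _).trans h0)
        _ = 𝔠 := Cardinal.continuum_mul_self
  have h2 : #OO ≤ 𝔠 := by
    refine (Algebra.IsAlgebraic.cardinalMk_le_max (FractionRing PP) OO).trans ?_
    exact max_le h1 Cardinal.aleph0_le_continuum
  refine le_antisymm h2 ?_
  have h3 := Cardinal.mk_le_of_injective (algebraMap ℂ OO).injective
  rwa [Cardinal.mk_complex] at h3

theorem big : S_big := by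
  intro F hF halg
  let k0 : IntermediateField F OO := IntermediateField.adjoin F (Set.range zeta)
  let k : IntermediateField k0 OO := algebraicClosure k0 OO
  have : IsScalarTower F ℂ OO := inferInstance
  have key : ∀ (ι : Type) (w : ι → ℂ), AlgebraicIndependent F w →
      AlgebraicIndependent k (fun l => algebraMap ℂ OO (w l)) := by
    intro ι w hw
    have hw' : AlgebraicIndependent F (fun l => algebraMap ℂ OO (w l)) :=
      hw.map' (f := IsScalarTower.toAlgHom F ℂ OO) (algebraMap ℂ OO).injective
    have h1 : AlgebraicIndependent F (Sum.elim zeta (fun l => algebraMap ℂ OO (w l))) :=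
      AlgebraicIndependent.sumElim_of_tower (S := ℂ) hw' (by
        rintro _ ⟨l, rfl⟩; exact ⟨w l, rfl⟩) zeta_ai
    have h2 : AlgebraicIndependent F (Sum.elim (fun l => algebraMap ℂ OO (w l)) zeta) := by
      have := h1.comp (Equiv.sumComm ι ℂ) (Equiv.injective _)
      convert this using 1
      ext x; rcases x with x | x <;> rfl
    have h3 := (AlgebraicIndependent.sumElim_iff.mp h2).2
    have h4 : AlgebraicIndependent k0 (fun l => algebraMap ℂ OO (w l)) :=
      IntermediateField.algebraicIndependent_adjoin_iff.mpr h3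
    exact h4.algebraicClosure
  refine ⟨k, OO, inferInstance, inferInstance, inferInstance, algebraMap ℂ OO,
    (algebraMap k0 k).comp (algebraMap F k0), ?_, ?_, ?_, ?_, ?_⟩
  · exact IsAlgClosure.isAlgClosed k0
  · apply le_antisymm
    · rw [← card_OO]
      exact Cardinal.mk_le_of_injective (f := fun x : k => (x : OO)) Subtype.val_injective
    · rw [← Cardinal.mk_complex]
      refine Cardinal.mk_le_of_injective (f := fun c : ℂ => (algebraMap k0 k ⟨zeta c, IntermediateField.subset_adjoin F _ ⟨c, rfl⟩⟩ : k)) ?_
      intro a b h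
      have h' := (algebraMap k0 k).injective h
      exact zeta_ai.injective (Subtype.ext_iff.mp h')
  · intro c
    rfl
  · intro ι _ w hw
    exact key ι w hw
  · intro a ha
    by_contra hna
    have h1 : Transcendental F a := fun h => hna (halg a h)
    have h2 : AlgebraicIndependent F (fun _ : Unit => a) := algebraicIndependent_unique_type_iff.mpr h1
    have h3 := key Unit _ h2
    have h4 : Transcendental k (algebraMap ℂ OO a) := algebraicIndependent_unique_type_iff.mp h3
    obtain ⟨x, hx⟩ := ha
    exact h4 (hx ▸ isAlgebraic_algebraMap x)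

end Pool.Agent.H501.QK
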