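import Pool.Agent.H664.QK.Stm

set_option autoImplicit false
set_option synthInstance.maxHeartbeats 400000

namespace Pool.Agent.H501.QK

open MvPolynomial Cardinal Pool.Agent.H664.QK

section rank

variable {k Ω ι : Type} [Field k] [Field Ω] [Algebra k Ω]

/-- the rank of a set -/
noncomputable def rk (k : Type) {Ω : Type} [Field k] [Field Ω] [Algebra k Ω] (S : Set Ω) : ℕ∞ :=
  (AlgebraicIndependent.matroid k Ω).eRk S

theorem tr_iff (w : ι → Ω) (d : ℕ) : Tr k w d ↔ (d : ℕ∞) ≤ rk k (Set.range w) := by
  classical
  unfold rk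
  rw [Matroid.le_eRk_iff]
  constructor
  · rintro ⟨J, hJ, hai⟩
    refine ⟨Set.range (fun j : J => w j), ?_, ?_, ?_⟩
    · rintro _ ⟨j, rfl⟩; exact ⟨j, rfl⟩
    · rw [AlgebraicIndependent.matroid_indep_iff]
      exact hai.coe_range
    · rw [← Set.image_univ, hai.injective.encard_image, Set.encard_univ]
      simp [hJ]
  · rintro ⟨I, hI, hind, hcard⟩
    rw [AlgebraicIndependent.matroid_indep_iff] at hind
    have hfin : I.Finite := Set.finite_of_encard_eq_coe hcard
    have := hfin.fintype
    choose g hg using fun i : I => hI i.2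
    have hginj : Function.Injective g := by
      intro a b h
      apply Subtype.ext
      rw [← hg a, ← hg b, h]
    let J : Finset ι := Finset.univ.map ⟨g, hginj⟩
    have hJc : J.card = d := by
      rw [Finset.card_map, Finset.card_univ]
      have : (Fintype.card I : ℕ∞) = d := by
        rw [← hcard, Set.encard, ENat.card_eq_coe_fintype_card]
      exact_mod_cast this
    refine ⟨J, hJc, ?_⟩
    let e : I ≃ J := Equiv.ofBijective (fun i => ⟨g i, by simp [J]⟩) (by
      constructor
      · intro a b h
        exact hginj (Subtype.ext_iff.mp h)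
      · rintro ⟨j, hj⟩
        simp only [J, Finset.mem_map, Finset.mem_univ, true_and] at hj
        obtain ⟨i, hi⟩ := hj
        exact ⟨i, Subtype.ext hi⟩)
    refine (algebraicIndependent_equiv' e ?_).mp hind
    funext i
    exact hg i

variable (u : Ω)

abbrev K1 (k : Type) {Ω : Type} [Field k] [Field Ω] [Algebra k Ω] (u : Ω) :
    IntermediateField (IntermediateField.adjoin k {u}) Ω :=
  algebraicClosure (IntermediateField.adjoin k {u}) Ω

theorem k1_ai {u : Ω} (hu : Transcendental k u) (y : ι → Ω) :
    AlgebraicIndependent (K1 k u) y ↔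
      AlgebraicIndependent k (Sum.elim y (fun _ : Unit => u)) := by
  rw [AlgebraicIndependent.sumElim_iff, Set.range_const,
    ← IntermediateField.algebraicIndependent_adjoin_iff,
    ← Algebra.IsAlgebraic.algebraicIndependent_iff (IntermediateField.adjoin k {u}) (K1 k u)]
  exact (and_iff_right (algebraicIndependent_unique_type_iff.mpr hu)).symm

theorem rk_k1 {u : Ω} (hu : Transcendental k u) (S : Set Ω) (n : ℕ) :
    (n : ℕ∞) ≤ rk (K1 k u) S ↔ ((n + 1 : ℕ) : ℕ∞) ≤ rk k (insert u S) := by
  constructor
  · intro h
    unfold rk at h ⊢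
    rw [Matroid.le_eRk_iff] at h
    obtain ⟨I, hI, hind, hcard⟩ := h
    have h1 : AlgebraicIndependent (K1 k u) (fun i : I => (i : Ω)) := hind
    rw [k1_ai hu] at h1
    have h2 := h1.coe_range
    have h3 : Set.range (Sum.elim (fun i : I => (i : Ω)) (fun _ : Unit => u)) = insert u I := by
      rw [Set.Sum.elim_range]
      ext x
      simp [eq_comm]
    have hcard2 : (insert u I : Set Ω).encard = n + 1 := by
      rw [Set.encard_insert_of_notMem, hcard]
      intro hmem
      have := h1.injective (a₁ := Sum.inl ⟨u, hmem⟩) (a₂ := Sum.inr ()) rfl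
      simp at this
    have h4 : (AlgebraicIndependent.matroid k Ω).Indep (insert u I) := by
      rw [← h3]; exact h2
    have h5 := h4.encard_le_eRk_of_subset (Set.insert_subset_insert hI : insert u I ⊆ insert u S)
    rw [hcard2] at h5
    push_cast
    exact h5
  · intro h
    unfold rk at h ⊢
    rw [Matroid.le_eRk_iff]
    have hsing : (AlgebraicIndependent.matroid k Ω).Indep {u} := by
      rw [AlgebraicIndependent.matroid_indep_iff]
      exact algebraicIndependent_unique_type_iff.mpr hu
    obtain ⟨B, hB, huB⟩ := hsing.subset_isBasis_of_subset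
      (show ({u} : Set Ω) ⊆ insert u S from by simp) (by simp)
    have hBc := hB.encard_eq_eRk
    have huB' : u ∈ B := huB rfl
    have hBd : (n : ℕ∞) ≤ (B \ {u}).encard := by
      have h6 := Set.encard_sdiff_singleton_add_one huB'
      rw [hBc] at h6
      rw [← h6] at h
      push_cast at h
      exact (ENat.add_le_add_iff_right (by simp)).mp h
    obtain ⟨I, hIB, hIc⟩ := Set.exists_subset_encard_eq hBd
    refine ⟨I, ?_, ?_, hIc⟩
    · intro x hx
      have := hB.subset (hIB hx).1
      rcases this with h7 | h7
      · exact absurd h7 (hIB hx).2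
      · exact h7
    · have h8 : (AlgebraicIndependent.matroid k Ω).Indep (insert u I) :=
        hB.indep.subset (Set.insert_subset huB' (hIB.trans Set.sdiff_subset))
      have hnm : u ∉ I := fun h9 => (hIB h9).2 rfl
      rw [AlgebraicIndependent.matroid_indep_iff]
      show AlgebraicIndependent (K1 k u) (fun i : I => (i : Ω))
      rw [k1_ai hu]
      have hinj : Function.Injective (Sum.elim (fun i : I => (i : Ω)) (fun _ : Unit => u)) := by
        apply Function.Injective.sumElim Subtype.val_injective (fun _ _ _ => rfl)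
        rintro ⟨a, ha⟩ _ h9
        exact hnm (h9 ▸ ha)
      rw [← algebraicIndependent_subtype_range hinj]
      have h3 : Set.range (Sum.elim (fun i : I => (i : Ω)) (fun _ : Unit => u)) = insert u I := by
        rw [Set.Sum.elim_range]
        ext x
        simp [eq_comm]
      rw [h3]
      exact h8

theorem rk_insert_of_alg {u : Ω} {S : Set Ω} (h : IsAlgebraic (IntermediateField.adjoin k S) u) :
    rk k (insert u S) = rk k S := by
  unfold rk
  rw [← Matroid.eRk_closure_eq, Matroid.closure_insert_eq_of_mem_closure, Matroid.eRk_closure_eq]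
  rw [AlgebraicIndependent.matroid_closure_eq]
  exact IntermediateField.isAlgebraic_adjoin_iff.mp h

theorem rk_insert_of_not_alg {u : Ω} {S : Set Ω}
    (h : ¬ IsAlgebraic (IntermediateField.adjoin k S) u) :
    rk k (insert u S) = rk k S + 1 := by
  unfold rk
  apply Matroid.eRk_insert_eq_add_one
  refine ⟨Set.mem_univ _, ?_⟩
  rw [AlgebraicIndependent.matroid_closure_eq]
  intro h'
  exact h (IntermediateField.isAlgebraic_adjoin_iff.mpr h')

theorem rk_mono {S T : Set Ω} (h : S ⊆ T) : rk k S ≤ rk k T := Matroid.eRk_mono _ h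

theorem rk_insert_le (u : Ω) (S : Set Ω) : rk k (insert u S) ≤ rk k S + 1 :=
  Matroid.eRk_insert_le_add_one _ _ _

theorem rk_insert_algebraMap (c : k) (S : Set Ω) : rk k (insert (algebraMap k Ω c) S) = rk k S :=
  rk_insert_of_alg (isAlgebraic_algebraMap (⟨algebraMap k Ω c, IntermediateField.algebraMap_mem _ c⟩ :
    IntermediateField.adjoin k S))

theorem rk_empty : rk k (∅ : Set Ω) = 0 := Matroid.eRk_empty _

theorem alg_mono {u : Ω} {S T : Set Ω} (hST : S ⊆ T)
    (h : IsAlgebraic (IntermediateField.adjoin k S) u) :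
    IsAlgebraic (IntermediateField.adjoin k T) u := by
  rw [IntermediateField.isAlgebraic_adjoin_iff] at h ⊢
  have h1 : u ∈ (AlgebraicIndependent.matroid k Ω).closure S := by
    rw [AlgebraicIndependent.matroid_closure_eq]; exact h
  have h2 := (AlgebraicIndependent.matroid k Ω).closure_subset_closure hST h1
  rw [AlgebraicIndependent.matroid_closure_eq] at h2
  exact h2

theorem rk_singleton {f : Ω} (hf : Transcendental k f) : rk k ({f} : Set Ω) = 1 := by
  have hsing : (AlgebraicIndependent.matroid k Ω).Indep {f} := by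
    rw [AlgebraicIndependent.matroid_indep_iff]
    exact algebraicIndependent_unique_type_iff.mpr hf
  unfold rk
  rw [hsing.eRk_eq_encard, Set.encard_singleton]

theorem exchange {u f : Ω} (hu : Transcendental k u) (hf : Transcendental k f)
    (h : IsAlgebraic (IntermediateField.adjoin k {u}) f) :
    IsAlgebraic (IntermediateField.adjoin k {f}) u := by
  by_contra hna
  have h1 := rk_insert_of_not_alg hna
  have h2 := rk_insert_of_alg h
  rw [Set.pair_comm, h2, rk_singleton hu, rk_singleton hf] at h1
  norm_num at h1

theorem mem_range_of_alg [IsAlgClosed k] {f : Ω} (h : IsAlgebraic k f) :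
    ∃ c : k, f = algebraMap k Ω c := by
  have h1 : (minpoly k f).degree = 1 :=
    IsAlgClosed.degree_eq_one_of_irreducible k (minpoly.irreducible h.isIntegral)
  obtain ⟨c, hc⟩ := minpoly.mem_range_of_degree_eq_one k f h1
  exact ⟨c, hc.symm⟩

theorem rk_two {S : Set Ω} (f g : Ω)
    (h : S ⊆ insert f (insert g (insert (algebraMap k Ω 0) (insert (algebraMap k Ω 1) ∅)))) :
    rk k S ≤ 2 := by
  refine (rk_mono h).trans ((rk_insert_le _ _).trans ?_)
  have h1 := rk_insert_le (k := k) g (insert (algebraMap k Ω 0) (insert (algebraMap k Ω 1) ∅))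
  rw [rk_insert_algebraMap, rk_insert_algebraMap, rk_empty] at h1
  calc _ ≤ (0 + 1 + 1 : ℕ∞) := by gcongr
    _ = 2 := by norm_num

end rank

theorem card_K1 (k : Type) {Ω : Type} [Field k] [Field Ω] [Algebra k Ω] (u : Ω) :
    #(K1 k u) ≤ max #k ℵ₀ := by
  refine (Algebra.IsAlgebraic.cardinalMk_le_max (IntermediateField.adjoin k {u}) (K1 k u)).trans ?_
  refine max_le ((IntermediateField.cardinalMk_adjoin_le k {u}).trans ?_) (le_max_right _ _)
  rw [Cardinal.mk_singleton]
  exact max_le (max_le (le_max_left _ _) (Cardinal.one_le_aleph0.trans (le_max_right _ _)))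
    (le_max_right _ _)

theorem up2 : S_up2 := by
  intro n d k Ω _ _ _ _ _ x y u hn hd hFR hTr hnTr hu hM
  rw [tr_iff] at hTr hnTr
  have hr : rk k (Set.range (Sum.elim x y)) = ((d + 1 : ℕ) : ℕ∞) := by
    apply le_antisymm _ hTr
    rw [not_le] at hnTr
    exact ENat.lt_natCast_add_one_iff.mp (by exact_mod_cast hnTr)
  have huT : Transcendental k u := by
    intro halg
    have h0 := hM 0 (halg.tower_top _)
    rw [tr_iff] at h0
    have h1 := rk_two (k := k) (S := Set.range (actF 0 (Sum.elim x y)))
      (algebraMap k Ω 0) (algebraMap k Ω 0) (by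
        rintro _ ⟨i, rfl⟩
        rcases i with i | i
        · left; simp [actF]
        · right; right; right; left; simp [actF])
    have h2 := h0.trans h1
    have h3 : d + 1 ≤ 2 := by exact_mod_cast h2
    omega
  have main : ∀ (f g : Ω) (m : Fin n → ℤ), f = ∑ j, (m j : Ω) * x j → g = ∏ j, y j ^ m j →
      ∀ h : Ω, (h = f ∨ h = g) → Transcendental k h → ∀ c : K1 k u, h ≠ algebraMap (K1 k u) Ω c := by
    intro f g m hf hg h hfg hht c hc
    have hca : IsAlgebraic (IntermediateField.adjoin k {u}) h := by
      rw [hc]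
      exact (Algebra.IsAlgebraic.isAlgebraic c).algebraMap
    have hex := exchange huT hht hca
    let i0 : Fin n := ⟨0, by omega⟩
    let M : Matrix (Fin n) (Fin n) ℤ := Matrix.of fun i j => if i = i0 then m j else 0
    have hsub : ({h} : Set Ω) ⊆ Set.range (actF M (Sum.elim x y)) := by
      rw [Set.singleton_subset_iff]
      rcases hfg with h1 | h1
      · exact ⟨Sum.inl i0, by simp [actF, M, h1, hf]⟩
      · exact ⟨Sum.inr i0, by simp [actF, M, h1, hg]⟩
    have h2 := hM M (alg_mono hsub hex)
    rw [tr_iff] at h2
    have h3 := rk_two (k := k) (S := Set.range (actF M (Sum.elim x y))) f g (by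
        rintro _ ⟨i, rfl⟩
        rcases i with i | i
        · by_cases hi : i = i0
          · left; simp [actF, M, hi, hf]
          · right; right; left; simp [actF, M, hi]
        · by_cases hi : i = i0
          · right; left; simp [actF, M, hi, hg]
          · right; right; right; left; simp [actF, M, hi])
    have h4 : d + 1 ≤ 2 := by exact_mod_cast h2.trans h3
    omega
  refine ⟨K1 k u, inferInstance, IsAlgClosure.isAlgClosed (IntermediateField.adjoin k {u}),
    inferInstance, (algebraMap (IntermediateField.adjoin k {u}) (K1 k u)).comp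
      (algebraMap k (IntermediateField.adjoin k {u})), ?_, card_K1 k u, ?_, ?_, ?_⟩
  · intro c
    rfl
  · refine ⟨hFR.y0, ?_, ?_, ?_⟩
    · intro m hm c
      refine main _ _ m rfl rfl _ (Or.inl rfl) ?_ c
      intro halg
      obtain ⟨c', hc'⟩ := mem_range_of_alg halg
      exact hFR.add m hm c' hc'
    · intro m hm c
      refine main _ _ m rfl rfl _ (Or.inr rfl) ?_ c
      intro halg
      obtain ⟨c', hc'⟩ := mem_range_of_alg halg
      exact hFR.mul m hm c' hc'
    · intro M
      rw [tr_iff, rk_k1 huT]
      by_cases hal : IsAlgebraic (IntermediateField.adjoin k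
          (Set.range (actF M (Sum.elim x y)))) u
      · have h1 := hM M hal
        rw [tr_iff] at h1
        have h2 : (M.map (Int.cast : ℤ → ℚ)).rank ≤ n := by
          simpa using Matrix.rank_le_card_width (M.map (Int.cast : ℤ → ℚ))
        refine le_trans ?_ (h1.trans (rk_mono (Set.subset_insert _ _)))
        exact_mod_cast (by omega : (M.map (Int.cast : ℤ → ℚ)).rank + 1 ≤ d + 1)
      · rw [rk_insert_of_not_alg hal]
        have h1 := hFR.rot M
        rw [tr_iff] at h1
        push_cast
        gcongr
  · rw [tr_iff, rk_k1 huT]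
    exact hTr.trans (rk_mono (Set.subset_insert _ _))
  · rw [tr_iff, rk_k1 huT, rk_insert_of_alg, hr, not_le]
    · exact_mod_cast (by omega : d + 1 < d + 1 + 1)
    · exact isAlgebraic_algebraMap (⟨u, hu⟩ : IntermediateField.adjoin k (Set.range (Sum.elim x y)))

end Pool.Agent.H501.QK
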